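import Mathlib

set_option autoImplicit false

open Complex Polynomial Filter Set MeasureTheory
open scoped Topology ContDiff

namespace Pool.Agent.Results.MP_871f9b_an.Dipole

/-- Euclidean three-space. -/
abbrev E : Type := EuclideanSpace ℝ (Fin 3)

/-- The partial derivative in the `i`-th coordinate. -/
noncomputable def D (i : Fin 3) (f : E → ℂ) (x : E) : ℂ := fderiv ℝ f x (EuclideanSpace.single i 1)

noncomputable def R (p : ℂ[X]) (y : E) : ℂ := cexp (I * ‖y‖) * p.eval ((‖y‖ : ℂ)⁻¹)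

noncomputable def T (p : ℂ[X]) : ℂ[X] := (C I * p - X ^ 2 * derivative p) * X

lemma cn {x : E} (hx : x ≠ 0) : ContDiffAt ℝ ∞ (fun y : E => (‖y‖ : ℂ)) x :=
  ofRealCLM.contDiff.contDiffAt.comp x (contDiffAt_norm ℝ hx)

lemma cR (p : ℂ[X]) {x : E} (hx : x ≠ 0) : ContDiffAt ℝ ∞ (R p) x :=
  (contDiffAt_const.mul (cn hx)).cexp.mul
    (((p.differentiable.contDiff (n := ∞)).restrict_scalars ℝ).contDiffAt.comp x
      ((cn hx).inv (by simpa using hx)))

lemma cc (j : Fin 3) : ContDiff ℝ ∞ fun y : E => (y j : ℂ) :=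
  ofRealCLM.contDiff.comp (EuclideanSpace.proj j : E →L[ℝ] ℝ).contDiff

lemma dR (p : ℂ[X]) {x : E} (hx : x ≠ 0) : DifferentiableAt ℝ (R p) x :=
  (cR p hx).differentiableAt (by simp)

lemma dc (j : Fin 3) (x : E) : DifferentiableAt ℝ (fun y : E => (y j : ℂ)) x :=
  (cc j).differentiable (by simp) x

lemma Dm {f g : E → ℂ} {x : E} (i : Fin 3) (hf : DifferentiableAt ℝ f x)
    (hg : DifferentiableAt ℝ g x) :
    D i (fun y => f y * g y) x = D i f x * g x + f x * D i g x := by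
  simp [D, fderiv_fun_mul hf hg]
  ring

lemma Dc (i j : Fin 3) (x : E) : D i (fun y => (y j : ℂ)) x = if j = i then 1 else 0 := by
  have := (ofRealCLM.comp (EuclideanSpace.proj j : E →L[ℝ] ℝ)).fderiv (x := x)
  rw [D, show (fun y : E => (y j : ℂ)) = ofRealCLM.comp (EuclideanSpace.proj j : E →L[ℝ] ℝ) from
    rfl, this]
  simp
  split_ifs <;> simp

lemma Dr (i : Fin 3) (p : ℂ[X]) {x : E} (hx : x ≠ 0) : D i (R p) x = R (T p) x * x i := by
  have r : ‖x‖ ≠ 0 := by simpa using hx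
  have r' : (‖x‖ : ℂ) ≠ 0 := by simpa using hx
  have h1 := (hasStrictFDerivAt_norm_sq x).hasFDerivAt.sqrt (pow_ne_zero 2 r)
  simp only [Real.sqrt_sq (norm_nonneg _)] at h1
  have h2 := ((((hasDerivAt_id (‖x‖ : ℂ)).const_mul I).cexp.mul
    ((p.hasDerivAt _).comp _ (hasDerivAt_inv r'))).comp_ofReal).hasFDerivAt.comp x h1
  rw [D, (show HasFDerivAt (R p) _ x from h2).fderiv]
  simp [R, T, EuclideanSpace.inner_single_right]
  field_simp
  ring

noncomputable def p0 : ℂ[X] := C I * X ^ 2 - X ^ 3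

noncomputable def u (y : E) : ℂ := y 2 * R p0 y

lemma D1 (i : Fin 3) {x : E} (hx : x ≠ 0) :
    D i u x = (if 2 = i then 1 else 0) * R p0 x + x 2 * (R (T p0) x * x i) := by
  rw [show u = fun y => y 2 * R p0 y from rfl, Dm i (dc 2 x) (dR _ hx), Dc, Dr i _ hx]

lemma nsq (x : E) : ‖x‖ ^ 2 = x 0 ^ 2 + x 1 ^ 2 + x 2 ^ 2 := by
  simp [EuclideanSpace.norm_sq_eq, Fin.sum_univ_three]

lemma pde {x : E} (hx : x ≠ 0) : ∑ i, D i (D i u) x + u x = 0 := by
  have h : ∀ i, D i (D i u) x = (if 2 = i then 1 else 0) * (R (T p0) x * x i) +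
      ((if 2 = i then 1 else 0) * (R (T p0) x * x i) +
        x 2 * (R (T (T p0)) x * x i * x i + R (T p0) x)) := fun i => by
    have e : D i u =ᶠ[𝓝 x] fun y =>
        (if 2 = i then 1 else 0) * R p0 y + y 2 * (R (T p0) y * y i) :=
      (eventually_ne_nhds hx).mono fun y hy => D1 i hy
    rw [D, e.fderiv_eq, fderiv_fun_add ((dR _ hx).const_mul _)
      ((dc 2 x).fun_mul ((dR _ hx).fun_mul (dc i x))), ContinuousLinearMap.add_apply, ← D, ← D,
      Dm i (differentiableAt_const _) (dR _ hx), Dm i (dc 2 x) ((dR _ hx).fun_mul (dc i x)),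
      Dm i (dR _ hx) (dc i x), Dr i _ hx, Dr i _ hx, Dc, Dc]
    simp [D]
  have r' : (‖x‖ : ℂ) ≠ 0 := by simpa using hx
  have q : (‖x‖ : ℂ) ^ 2 = x 0 ^ 2 + x 1 ^ 2 + x 2 ^ 2 := by exact_mod_cast nsq x
  have k : 5 * R (T p0) x + ‖x‖ ^ 2 * R (T (T p0)) x + R p0 x = 0 := by
    simp [R, T, p0]
    field_simp
    ring_nf
    simp only [I_sq, I_pow_three]
    ring
  simp [Fin.sum_univ_three, h, u]
  linear_combination x 2 * k - x 2 * R (T (T p0)) x * q

noncomputable def l (x : E) : ℝ :=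
  (2 * x 2 ^ 2 - ‖x‖ ^ 2) / ‖x‖ ^ 6 - (‖x‖ ^ 2 + 3 * x 2 ^ 2) / ‖x‖ ^ 8

lemma lag {x : E} (hx : x ≠ 0) : ‖u x‖ ^ 2 - ∑ i, ‖D i u x‖ ^ 2 = l x := by
  have r : ‖x‖ ≠ 0 := by simpa using hx
  have n : ∀ a b : ℝ, ‖cexp (I * ‖x‖) * (a + b * I)‖ ^ 2 = a ^ 2 + b ^ 2 := fun a b => by
    rw [norm_mul, norm_exp_I_mul_ofReal, one_mul, Complex.sq_norm, normSq_add_mul_I]
  set s := ‖x‖⁻¹ with hs
  have a0 : R p0 x = cexp (I * ‖x‖) * ((-s ^ 3 : ℝ) + (s ^ 2 : ℝ) * I) := by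
    simp [R, p0, hs]
    ring
  have a1 : R (T p0) x = cexp (I * ‖x‖) * ((3 * s ^ 5 - s ^ 3 : ℝ) + (-3 * s ^ 4 : ℝ) * I) := by
    simp [R, T, p0, hs]
    linear_combination ((‖x‖ : ℂ) ^ 3)⁻¹ * I_sq
  have b : ∀ c e : ℝ, ‖c * R p0 x + x 2 * (R (T p0) x * e)‖ ^ 2 =
      (c * -s ^ 3 + x 2 * e * (3 * s ^ 5 - s ^ 3)) ^ 2 +
        (c * s ^ 2 + x 2 * e * (-3 * s ^ 4)) ^ 2 := fun c e => by
    rw [← n, a0, a1]
    congr 2
    push_cast
    ring
  have b0 := b 0 (x 0)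
  have b1 := b 0 (x 1)
  have b2 := b 1 (x 2)
  have b3 := b (x 2) 0
  simp only [Fin.sum_univ_three, D1 _ hx, u]
  simp only [ofReal_zero, ofReal_one, mul_zero, add_zero] at b0 b1 b2 b3
  rw [if_neg (by decide), if_neg (by decide), if_pos trivial, b0, b1, b2, b3, l, hs]
  have q := nsq x
  field_simp
  linear_combination (x 2 ^ 2 * (‖x‖ ^ 4 + 3 * ‖x‖ ^ 2 + 9)) * q

noncomputable def w (x : E) : ℝ := 4 * (1 - x 2 ^ 2 / ‖x‖ ^ 2)

noncomputable def ρ (n : ℕ) (x : E) : ℝ := 3 + ∑ k ∈ Finset.range n, w x ^ k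

def V (n : ℕ) : Set E := {x | ‖x‖ - ρ n x ≤ 0}

lemma zle (x : E) : x 2 ^ 2 ≤ ‖x‖ ^ 2 := by nlinarith [nsq x, sq_nonneg (x 0), sq_nonneg (x 1)]

lemma w0 (x : E) : 0 ≤ w x := by
  have := div_le_one_of_le₀ (zle x) (sq_nonneg _)
  unfold w
  linarith

lemma w4 (x : E) : w x ≤ 4 := by
  have : 0 ≤ x 2 ^ 2 / ‖x‖ ^ 2 := by positivity
  unfold w
  linarith

lemma ρ3 (n : ℕ) (x : E) : 3 ≤ ρ n x :=
  le_add_of_nonneg_right (Finset.sum_nonneg fun _ _ => pow_nonneg (w0 x) _)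

lemma ρs (n : ℕ) (x : E) {t : ℝ} (ht : t ≠ 0) : ρ n (t • x) = ρ n x := by
  simp [ρ, w, norm_smul, mul_pow, mul_div_mul_left _ _ (pow_ne_zero 2 ht)]

lemma cw {x : E} (hx : x ≠ 0) : ContDiffAt ℝ ∞ w x :=
  contDiffAt_const.mul (contDiffAt_const.sub
    (((EuclideanSpace.proj 2 : E →L[ℝ] ℝ).contDiff.contDiffAt.pow 2).div
      (contDiff_norm_sq ℝ).contDiffAt (by simpa using hx)))

lemma cF (n : ℕ) {x : E} (hx : x ≠ 0) : ContDiffAt ℝ ∞ (fun y => ‖y‖ - ρ n y) x :=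
  (contDiffAt_norm ℝ hx).sub (contDiffAt_const.add (ContDiffAt.sum fun _ _ => (cw hx).pow _))

lemma out {n : ℕ} {x : E} (h : x ∉ V n) : 3 < ‖x‖ := by
  have := ρ3 n x
  simp only [V, mem_setOf_eq, not_le] at h
  linarith

lemma ne0 {x : E} (h : 3 < ‖x‖) : x ≠ 0 := by
  rintro rfl
  norm_num at h

lemma int0 (n : ℕ) : (0 : E) ∈ interior (V n) :=
  mem_interior_iff_mem_nhds.2 (mem_of_superset (Metric.ball_mem_nhds 0 three_pos) fun x hx => by
    by_contra h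
    have := out h
    simp at hx
    linarith)

lemma cl (n : ℕ) : IsClosed (V n) :=
  isOpen_compl_iff.1 (isOpen_iff_mem_nhds.2 fun x hx =>
    ((cF n (ne0 (out hx))).continuousAt.eventually (lt_mem_nhds (not_le.1 hx))).mono
      fun _ hy => not_le.2 hy)

lemma cpt (n : ℕ) : IsCompact (V n) :=
  Metric.isCompact_of_isClosed_isBounded (cl n)
    ((Metric.isBounded_closedBall (x := 0) (r := 3 + ∑ k ∈ Finset.range n, 4 ^ k)).subset
      fun x hx => by
        have : ∑ k ∈ Finset.range n, w x ^ k ≤ ∑ k ∈ Finset.range n, 4 ^ k :=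
          Finset.sum_le_sum fun k _ => pow_le_pow_left₀ (w0 x) (w4 x) k
        simp only [V, ρ, mem_setOf_eq] at hx
        simp only [mem_closedBall_zero_iff]
        linarith)

lemma star (n : ℕ) : StarConvex ℝ 0 (V n) := starConvex_zero_iff.2 fun {x} hx a h0 h1 => by
  rcases h0.eq_or_lt with rfl | h
  · simpa using interior_subset (int0 n)
  · simp only [V, mem_setOf_eq, ρs n x h.ne', norm_smul, Real.norm_of_nonneg h0] at hx ⊢
    nlinarith [norm_nonneg x]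

lemma dF (n : ℕ) {x : E} (hx : x ≠ 0) : fderiv ℝ (fun y => ‖y‖ - ρ n y) x ≠ 0 := fun h => by
  have h1 := ((cF n hx).differentiableAt (by simp)).hasFDerivAt
  rw [h] at h1
  have h2 := (show HasFDerivAt _ _ ((1 : ℝ) • x) by rwa [one_smul]).comp_hasDerivAt (1 : ℝ)
    ((hasDerivAt_id (1 : ℝ)).smul_const x)
  have h3 : HasDerivAt (fun t : ℝ => t * ‖x‖ - ρ n x) (1 * ‖x‖) 1 :=
    ((hasDerivAt_id (1 : ℝ)).mul_const _).sub_const _
  have := (h3.congr_of_eventuallyEq ((lt_mem_nhds one_pos).mono fun t ht => ?_)).unique h2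
  · exact hx (by simpa using this)
  · simp [ρs n x ht.ne', norm_smul, abs_of_pos ht]

lemma data (n : ℕ) : ∃ x ∈ frontier (V n), u x ≠ 0 := by
  set e : E := EuclideanSpace.single 2 1
  have c := ρ3 n e
  have c0 : 0 < ρ n e := by linarith
  have m : ∀ t, 0 < t → (t • e ∈ V n ↔ t ≤ ρ n e) := fun t ht => by
    simp [V, ρs n e ht.ne', norm_smul, abs_of_pos ht, e]
  refine ⟨ρ n e • e, ⟨subset_closure ((m _ c0).2 le_rfl), fun h => ?_⟩, ?_⟩
  · have : ∀ᶠ t in 𝓝[>] (ρ n e), t • e ∈ V n :=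
      (((continuous_id.smul continuous_const : Continuous fun t : ℝ => t • e).tendsto
        _).eventually (mem_interior_iff_mem_nhds.1 h)).filter_mono nhdsWithin_le_nhds
    obtain ⟨t, h1, h2⟩ := (this.and self_mem_nhdsWithin).exists
    exact h2.not_ge ((m t (c0.trans h2)).1 h1)
  · have : ‖ρ n e • e‖ = ρ n e := by simp [norm_smul, abs_of_pos c0, e]
    intro h
    simp [u, R, p0, this, e, c0.ne'] at h
    have := congrArg Complex.re h
    simp [← ofReal_pow, ← ofReal_inv] at this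
    exact c0.ne' this

lemma rad : Tendsto (fun x : E => ‖x‖ * cexp (-(I * ‖x‖)) * u x - I * (‖x‖⁻¹ • x) 2)
    (cocompact E) (𝓝 0) := by
  refine squeeze_zero_norm' ?_ (tendsto_inv_atTop_zero.comp tendsto_norm_cocompact_atTop)
  filter_upwards [tendsto_norm_cocompact_atTop.eventually_gt_atTop 0] with x hx
  have r' : (‖x‖ : ℂ) ≠ 0 := by exact_mod_cast hx.ne'
  have : ‖x‖ * cexp (-(I * ‖x‖)) * u x - I * (‖x‖⁻¹ • x) 2 = (-(x 2 / ‖x‖ ^ 2) : ℝ) := by
    simp [u, R, p0, exp_neg]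
    field_simp
    ring
  rw [this, norm_real, norm_neg, norm_div, norm_pow, norm_norm, div_le_iff₀ (by positivity)]
  refine (PiLp.norm_apply_le x 2).trans_eq ?_
  simp
  field_simp

lemma li (n : ℕ) : IntegrableOn l (V n)ᶜ := by
  have := ((integrable_one_add_norm (E := E) (μ := volume) (r := 4) (by simp; norm_num)).const_mul
    80).integrableOn (s := (V n)ᶜ)
  refine this.mono' (Measurable.aestronglyMeasurable (by unfold l; fun_prop))
    (ae_restrict_of_forall_mem (cl n).measurableSet.compl fun x hx => ?_)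
  have r := out hx
  have z := zle x
  have z0 := sq_nonneg (x 2)
  rw [Real.rpow_neg (by positivity), show (4 : ℝ) = (4 : ℕ) by simp, Real.rpow_natCast, l]
  have h : 5 / ‖x‖ ^ 4 ≤ 80 * ((1 + ‖x‖) ^ 4)⁻¹ := by
    rw [← div_eq_mul_inv, div_le_div_iff₀ (by positivity) (by positivity)]
    have : (1 + ‖x‖) ^ 4 ≤ (2 * ‖x‖) ^ 4 := pow_le_pow_left₀ (by positivity) (by linarith) 4
    linarith
  refine le_trans ?_ h
  have r2 : 9 ≤ ‖x‖ ^ 2 := by nlinarith
  rw [Real.norm_eq_abs, abs_le]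
  constructor
  · field_simp
    nlinarith
  · field_simp
    nlinarith

lemma pos : ∃ n, 0 < ∫ x in (V n)ᶜ, l x := by
  have an : Antitone fun n => (V n)ᶜ := antitone_nat_of_succ_le fun n x hx => by
    have := pow_nonneg (w0 x) n
    simp only [V, ρ, mem_compl_iff, mem_setOf_eq, not_le, Finset.sum_range_succ] at hx ⊢
    linarith
  have me := fun n => (cl n).measurableSet.compl
  have hp : ∀ x ∈ ⋂ n, (V n)ᶜ, 0 < l x := fun x hx => by
    have r := out (mem_iInter.1 hx 0)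
    have : w x < 1 := by
      by_contra h
      obtain ⟨n, hn⟩ := exists_nat_gt ‖x‖
      have := Finset.card_nsmul_le_sum (Finset.range n) (fun k => w x ^ k) 1 fun k _ =>
        one_le_pow₀ (not_lt.1 h)
      have h2 := mem_iInter.1 hx n
      simp [V, ρ] at h2 this
      linarith
    have r2 : 9 < ‖x‖ ^ 2 := by nlinarith
    have z := zle x
    have z1 : 3 / 4 * ‖x‖ ^ 2 < x 2 ^ 2 := by
      rw [← lt_div_iff₀ (by positivity)]
      unfold w at this
      linarith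
    unfold l
    field_simp
    nlinarith
  refine ((tendsto_setIntegral_of_antitone me an ⟨0, li 0⟩).eventually (lt_mem_nhds ?_)).exists
  rw [setIntegral_pos_iff_support_of_nonneg_ae (ae_restrict_of_forall_mem
    (MeasurableSet.iInter me) fun x hx => (hp x hx).le) ((li 0).mono_set (iInter_subset _ 0))]
  set e : E := EuclideanSpace.single 2 10
  have n10 : ‖e‖ = 10 := by simp [e]
  have : ⋂ n, (V n)ᶜ ∈ 𝓝 e := by
    filter_upwards [(cw (ne0 (x := e) (by rw [n10]; norm_num))).continuousAt.eventually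
      (gt_mem_nhds (a := 1 / 2) (by simp [w, n10, e])), continuous_norm.continuousAt.eventually
      (lt_mem_nhds (show 5 < ‖e‖ by rw [n10]; norm_num))] with x h1 h2
    refine mem_iInter.2 fun n => ?_
    have := (Finset.sum_le_sum fun k (_ : k ∈ Finset.range n) =>
      pow_le_pow_left₀ (w0 x) h1.le k).trans (sum_geometric_two_le n)
    simp only [V, ρ, mem_compl_iff, mem_setOf_eq, not_le]
    linarith
  exact (Measure.measure_pos_of_mem_nhds _ this).trans_le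
    (measure_mono fun x hx => ⟨(hp x hx).ne', hx⟩)

theorem result : ∃ (V : Set E) (u f : E → ℂ), IsCompact V ∧ StarConvex ℝ 0 V ∧
    0 ∈ interior V ∧
    (∀ x ∈ frontier V, ∃ F : E → ℝ, ContDiffAt ℝ ∞ F x ∧ fderiv ℝ F x ≠ 0 ∧
      ∀ᶠ y in 𝓝 x, y ∈ V ↔ F y ≤ 0) ∧
    (∀ x ∉ interior V, ContDiffAt ℝ ∞ u x) ∧
    (∀ x ∉ V, ∑ i, D i (D i u) x + u x = 0) ∧ ContDiff ℝ ∞ f ∧
    Tendsto (fun x : E => ‖x‖ * cexp (-(I * ‖x‖)) * u x - f (‖x‖⁻¹ • x)) (cocompact E) (𝓝 0) ∧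
    (∃ x ∈ frontier V, u x ≠ 0) ∧
    IntegrableOn (fun x => ‖u x‖ ^ 2 - ∑ i, ‖D i u x‖ ^ 2) Vᶜ ∧
    0 < 1 / 2 * ∫ x in Vᶜ, (‖u x‖ ^ 2 - ∑ i, ‖D i u x‖ ^ 2) := by
  obtain ⟨n, hn⟩ := pos
  have h : ∀ x ∉ interior (V n), x ≠ 0 := by
    rintro x hx rfl
    exact hx (int0 n)
  have e : EqOn l (fun x => ‖u x‖ ^ 2 - ∑ i, ‖D i u x‖ ^ 2) (V n)ᶜ := fun x hx =>
    (lag (ne0 (out hx))).symm
  have me := (cl n).measurableSet.compl
  refine ⟨V n, u, fun y => I * y 2, cpt n, star n, int0 n, fun x hx =>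
    ⟨_, cF n (h x hx.2), dF n (h x hx.2), .of_forall fun _ => Iff.rfl⟩,
    fun x hx => (cc 2).contDiffAt.mul (cR _ (h x hx)), fun x hx => pde (ne0 (out hx)),
    contDiff_const.mul (cc 2), rad, data n, (li n).congr_fun e me, ?_⟩
  rw [← setIntegral_congr_fun me e]
  positivity

end Pool.Agent.Results.MP_871f9b_an.Dipole
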